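import Mathlib
import Pool.Agent.H.MP_6dbda4_lc.A

namespace Pool.Agent.Results.MP_6dbda4_lc.No

open MeasureTheory Set Cardinal Function Sum Pool.Agent.H.MP_6dbda4_lc

/-- `τ` is a labelled Markov process on the measurable space `S` with labels `L`. -/
def IsLMP {L S : Type} [MeasurableSpace S] (τ : L → S → Measure S) : Prop :=
  (∀ a s, τ a s univ ≤ 1) ∧ ∀ a (X : Set S), MeasurableSet X → Measurable fun s => τ a s X

/-- `f` is a zigzag morphism from `τ` to `τ'`. -/
def Zigzag {L S S' : Type} [MeasurableSpace S] [MeasurableSpace S'] (τ : L → S → Measure S)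
    (τ' : L → S' → Measure S') (f : S → S') : Prop :=
  Measurable f ∧ ∀ a s (A : Set S'), MeasurableSet A → τ' a (f s) A = τ a s (f ⁻¹' A)

/-- three-layer process: a root, middle states, and bottom states returning to the root -/
noncomputable def lay (L : Type) {A B : Type} [MeasurableSpace A] [MeasurableSpace B]
    (ρ : Measure A) (k : A → Measure B) (w : B → ENNReal) :
    L → Unit ⊕ A ⊕ B → Measure (Unit ⊕ A ⊕ B) := fun _ =>
  Sum.elim (fun _ => ρ.map (inr ∘ inl))
    (Sum.elim (fun a => (k a).map (inr ∘ inr)) fun b => w b • Measure.dirac (inl ()))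

section
variable {L A B : Type} [MeasurableSpace A] [MeasurableSpace B] {ρ : Measure A}
  {k : A → Measure B} {w : B → ENNReal} {X : Set (Unit ⊕ A ⊕ B)}

theorem lay0 (a : L) (hX : MeasurableSet X) :
    lay L ρ k w a (inl ()) X = ρ ((inr ∘ inl) ⁻¹' X) :=
  Measure.map_apply (measurable_inr.comp measurable_inl) hX

theorem lay1 (a : L) (m : A) (hX : MeasurableSet X) :
    lay L ρ k w a (inr (inl m)) X = k m ((inr ∘ inr) ⁻¹' X) :=
  Measure.map_apply (measurable_inr.comp measurable_inr) hX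

theorem lay2 (a : L) (b : B) (hX : MeasurableSet X) :
    lay L ρ k w a (inr (inr b)) X = w b * X.indicator 1 (inl ()) := by
  simp [lay, Measure.dirac_apply' _ hX]

theorem lay_lmp (h0 : ρ univ = 1) (h1 : ∀ m, k m univ = 1) (h2 : ∀ b, w b < 1)
    (hk : ∀ Y, MeasurableSet Y → Measurable fun m => k m Y) (hw : Measurable w) :
    IsLMP (lay L ρ k w) := by
  refine ⟨fun a s => ?_, fun a X hX => measurable_fun_sum Subsingleton.measurable
    (measurable_fun_sum ?_ ?_)⟩
  · rcases s with ⟨⟨⟩⟩ | m | b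
    · rw [lay0 _ MeasurableSet.univ]; simp [h0]
    · rw [lay1 _ _ MeasurableSet.univ]; simp [h1]
    · rw [lay2 _ _ MeasurableSet.univ]; simp [(h2 _).le]
  · have : ((fun s => lay L ρ k w a s X) ∘ inr) ∘ inl = fun m => k m ((inr ∘ inr) ⁻¹' X) :=
      funext fun m => lay1 a m hX
    rw [this]
    exact hk _ ((measurable_inr.comp measurable_inr) hX)
  · have : ((fun s => lay L ρ k w a s X) ∘ inr) ∘ inr = fun b => w b * X.indicator 1 (inl ()) :=
      funext fun b => lay2 a b hX
    rw [this]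
    exact hw.mul measurable_const

theorem lay_zz {A' B' : Type} [MeasurableSpace A'] [MeasurableSpace B'] {ρ' : Measure A'}
    {k' : A' → Measure B'} {w' : B' → ENNReal} {f : A → A'} {g : B → B'} (hf : Measurable f)
    (hg : Measurable g) (h0 : ∀ Y, MeasurableSet Y → ρ' Y = ρ (f ⁻¹' Y))
    (h1 : ∀ m Y, MeasurableSet Y → k' (f m) Y = k m (g ⁻¹' Y)) (h2 : ∀ b, w' (g b) = w b) :
    Zigzag (lay L ρ k w) (lay L ρ' k' w') (Sum.map id (Sum.map f g)) := by
  have hm : Measurable (Sum.map id (Sum.map f g) : Unit ⊕ A ⊕ B → Unit ⊕ A' ⊕ B') :=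
    measurable_id.sumMap (hf.sumMap hg)
  refine ⟨hm, fun a s Y hY => ?_⟩
  rcases s with ⟨⟨⟩⟩ | m | b
  · rw [lay0 _ (hm hY)]
    exact (lay0 _ hY).trans (h0 _ ((measurable_inr.comp measurable_inl) hY))
  · rw [lay1 _ _ (hm hY)]
    exact (lay1 _ _ hY).trans (h1 _ _ ((measurable_inr.comp measurable_inr) hY))
  · rw [lay2 _ _ (hm hY)]
    refine (lay2 _ _ hY).trans ?_
    rw [h2]
    rfl

end

/-- the weight of the transition at `r` -/
noncomputable def wt (r : unitInterval) : ENNReal := ENNReal.ofReal (r / 2)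

theorem wt_meas : Measurable wt := by unfold wt; fun_prop

theorem wt_lt (r : unitInterval) : wt r < 1 := by
  unfold wt
  rw [ENNReal.ofReal_lt_one]
  linarith [r.2.2]

theorem wt_inj {r r' : unitInterval} (h : wt r = wt r') : r = r' := by
  unfold wt at h
  rw [ENNReal.ofReal_eq_ofReal_iff (by linarith [r.2.1]) (by linarith [r'.2.1])] at h
  exact Subtype.ext (by linarith)

/-- the index set -/
abbrev I : Type := W ⊕ ℝ → Bool

/-- admissible shifts -/
def Adm {P : Type} (e : P → I → ℕ) : Set ((W × P) × (I → Bool)) :=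
  {z | InjOn (e z.1.2) {i | z.2 i ≠ i (inl z.1.1)}}

/-- bottom states of the first process -/
def Bot {P : Type} (e : P → I → ℕ) (V : Set (unitInterval × (I → Bool))) :
    Set ((W × P) × (unitInterval × (I → Bool))) :=
  {l | ∃ c, ∃ v ∈ V, (l.1, c) ∈ Adm e ∧ l.2 = sh c v}

theorem result (L : Type) [Nonempty L] :
    ∃ (S S' T : Type) (_ : MeasurableSpace S) (_ : MeasurableSpace S') (_ : MeasurableSpace T)
      (τ : L → S → Measure S) (τ' : L → S' → Measure S') (σ : L → T → Measure T)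
      (f : T → S) (g : T → S') (t : T), IsLMP τ ∧ IsLMP τ' ∧ IsLMP σ ∧ Zigzag σ τ f ∧
      Zigzag σ τ' g ∧ ¬ ∃ (R : Set (S × S')) (_ : MeasurableSpace R) (κ : L → R → Measure R),
        IsLMP κ ∧ Zigzag κ τ (fun r => r.1.1) ∧ Zigzag κ τ' (fun r => r.1.2) ∧ (f t, g t) ∈ R := by
  classical
  obtain ⟨P, e, hP, he⟩ := ek (W ⊕ ℝ) (by
    rw [mk_sum, lift_id, lift_id, mk_real]
    exact (add_le_add W_card le_rfl).trans_eq (add_eq_self aleph0_le_continuum))
  have : Nonempty P := let ⟨p, _⟩ := he ∅ countable_empty 0; ⟨p⟩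
  obtain ⟨V, hVi, hV⟩ := thick hP e he (Measure.infinitePi fun _ : I => coin)
  obtain ⟨m', hm'⟩ := trace _ V hV
  obtain ⟨mM, ρ, hρ1, hρ0, hρ⟩ := filt P
  have : IsProbabilityMeasure ρ := ⟨hρ1⟩
  have : IsProbabilityMeasure m' := ⟨by simpa using hm' univ MeasurableSet.univ⟩
  obtain ⟨ρT, hρT⟩ := trace (ρ.prod (Measure.dirac fun _ : I => false)) (Adm e) fun B hB h0 => by
    obtain ⟨J, hJ, hd⟩ := dep hB
    obtain ⟨h, hh⟩ := Set.countable_iff_exists_injOn.mp hJ
    obtain ⟨p, hp⟩ := he J hJ h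
    rw [Measure.prod_dirac, Measure.map_apply measurable_prodMk_right hB] at h0
    obtain ⟨a, ha⟩ := hρ _ (measurable_prodMk_right hB) h0 p
    refine ⟨((a, p), fun i => if i ∈ J then false else i (inl a)),
      (hd _ _ _ fun i hi => (if_pos hi).symm).mp ha, fun i hi j hj hij => ?_⟩
    have hi' : i ∈ J := by by_contra h'; exact hi (if_neg h')
    have hj' : j ∈ J := by by_contra h'; exact hj (if_neg h')
    exact hh hi' hj' ((hp i hi').symm.trans (hij.trans (hp j hj')))
  let φ : Adm e × V → Bot e V := fun z =>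
    ⟨(z.1.1.1, sh z.1.1.2 z.2.1), z.1.1.2, z.2.1, z.2.2, z.1.2, rfl⟩
  have hφ : Measurable φ := Measurable.subtype_mk
    ((measurable_subtype_coe.comp measurable_fst).fst.prodMk
      (sh_meas (measurable_subtype_coe.comp measurable_fst).snd
        (measurable_subtype_coe.comp measurable_snd)))
  let z0 : W × P → Adm e := fun m => ⟨(m, fun i => i (inl m.1)), fun i hi => absurd rfl hi⟩
  have key : ∀ (z : Adm e) (A : Set ((W × P) × (unitInterval × (I → Bool)))), MeasurableSet A →
      m' ((fun v => φ (z, v)) ⁻¹' (Subtype.val ⁻¹' A)) =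
        (volume.prod (Measure.infinitePi fun _ : I => coin)) (Prod.mk z.1.1 ⁻¹' A) := by
    intro z A hA
    rw [← sh_inv volume z.1.2 (measurable_prodMk_left hA),
      ← hm' (sh z.1.2 ⁻¹' (Prod.mk z.1.1 ⁻¹' A))
        (sh_meas measurable_const measurable_id (measurable_prodMk_left hA))]
    rfl
  let kS : W × P → Measure (Bot e V) := fun m => m'.map fun v => φ (z0 m, v)
  have hkS : ∀ m Y, MeasurableSet Y → kS m Y = m' ((fun v => φ (z0 m, v)) ⁻¹' Y) := fun m Y hY =>
    Measure.map_apply (hφ.comp measurable_prodMk_left) hY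
  have hkT : ∀ (z : Adm e) Y, MeasurableSet Y → m'.map (Prod.mk z) Y = m' (Prod.mk z ⁻¹' Y) :=
    fun z Y hY => Measure.map_apply measurable_prodMk_left hY
  have hkS1 : ∀ m, kS m univ = 1 := fun m => by rw [hkS _ _ MeasurableSet.univ]; simp
  refine ⟨Unit ⊕ (W × P) ⊕ Bot e V, Unit ⊕ Unit ⊕ V, Unit ⊕ Adm e ⊕ (Adm e × V), inferInstance,
    inferInstance, inferInstance, lay L ρ kS fun l => wt l.1.2.1,
    lay L (Measure.dirac ()) (fun _ => m') fun v => wt v.1.1,
    lay L ρT (fun z => m'.map (Prod.mk z)) fun z => wt z.2.1.1,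
    Sum.map id (Sum.map (fun z => z.1.1) φ), Sum.map id (Sum.map (fun _ => ()) Prod.snd), inl (),
    lay_lmp hρ1 hkS1 (fun _ => wt_lt _) ?_ (wt_meas.comp measurable_subtype_coe.snd.fst),
    lay_lmp (by simp) (by simp) (fun _ => wt_lt _) (fun _ _ => measurable_const)
      (wt_meas.comp measurable_subtype_coe.fst),
    lay_lmp (by simpa using hρT univ MeasurableSet.univ)
      (fun z => by rw [hkT _ _ MeasurableSet.univ]; simp) (fun _ => wt_lt _) ?_
      (wt_meas.comp (measurable_subtype_coe.comp measurable_snd).fst),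
    lay_zz measurable_subtype_coe.fst hφ ?_ ?_ fun _ => rfl,
    lay_zz measurable_const measurable_snd ?_ ?_ fun _ => rfl, ?_⟩
  · rintro _ ⟨A, hA, rfl⟩
    have : (fun m => kS m (Subtype.val ⁻¹' A)) = fun m =>
        (volume.prod (Measure.infinitePi fun _ : I => coin)) (Prod.mk m ⁻¹' A) := funext fun m => by
      rw [hkS _ _ (measurable_subtype_coe hA), key _ _ hA]
    rw [this]
    exact measurable_measure_prodMk_left hA
  · intro Y hY
    simp only [hkT _ _ hY]
    exact measurable_measure_prodMk_left hY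
  · intro Y hY
    have := hρT _ (measurable_fst hY)
    rw [← Set.prod_univ, Measure.prod_prod, measure_univ, mul_one, Set.prod_univ] at this
    exact this.symm
  · rintro z _ ⟨A, hA, rfl⟩
    rw [hkS _ _ (measurable_subtype_coe hA), key _ _ hA, hkT _ _ (hφ (measurable_subtype_coe hA)),
      ← key z _ hA]
    rfl
  · intro Y hY
    have h1 : ρT univ = 1 := by simpa using hρT univ MeasurableSet.univ
    by_cases h : () ∈ Y
    · rw [eq_univ_of_forall (s := Y) fun _ => h]; simp [h1]
    · rw [eq_empty_of_forall_notMem (s := Y) fun _ => h]; simp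
  · intro z Y hY
    rw [hkT _ _ (measurable_snd hY)]
    rfl
  rintro ⟨R, mR, κ, hκ, ⟨hp1, hz1⟩, ⟨hp2, hz2⟩, h0⟩
  obtain ⟨a⟩ := ‹Nonempty L›
  have mass : ∀ r : R, lay L ρ kS (fun l => wt l.1.2.1) a r.1.1 univ = κ a r univ := fun r =>
    hz1 a r univ MeasurableSet.univ
  have bot : ∀ (r : R) l, r.1.1 = inr (inr l) → ∃ v, r.1.2 = inr (inr v) ∧ v.1.1 = l.1.2.1 := by
    intro r l hl
    have h1 := (mass r).trans (hz2 a r univ MeasurableSet.univ).symm
    rw [hl, lay2 _ _ MeasurableSet.univ] at h1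
    beta_reduce at h1
    rcases h : r.1.2 with ⟨⟨⟩⟩ | ⟨⟨⟩⟩ | v <;> rw [h] at h1
    · rw [lay0 _ MeasurableSet.univ] at h1
      simp [(wt_lt _).ne] at h1
    · rw [lay1 _ _ MeasurableSet.univ] at h1
      simp [(wt_lt _).ne] at h1
    · rw [lay2 _ _ MeasurableSet.univ] at h1
      simp only [indicator_univ, Pi.one_apply, mul_one] at h1
      exact ⟨v, rfl, (wt_inj h1).symm⟩
  let q : I → R → Bool := fun i r =>
    xor (Sum.elim (fun _ => false) (Sum.elim (fun _ => false) fun l => l.1.2.2 i) r.1.1)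
      (Sum.elim (fun _ => false) (Sum.elim (fun _ => false) fun v => v.1.2 i) r.1.2)
  have hq : ∀ i, Measurable (q i) := fun i =>
    (Measurable.of_discrete (f := fun p : Bool × Bool => xor p.1 p.2)).comp
      (((measurable_const.sumElim (measurable_const.sumElim ((measurable_pi_apply i).comp
        measurable_subtype_coe.snd.snd))).comp hp1).prodMk
      ((measurable_const.sumElim (measurable_const.sumElim ((measurable_pi_apply i).comp
        measurable_subtype_coe.snd))).comp hp2))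
  have step : ∀ x : (W × P) × (Unit ⊕ Unit ⊕ V), ∃ N : Set I, N.Countable ∧
      ∀ h : (inr (inl x.1), x.2) ∈ R, ∀ i ∉ N,
        (κ a ⟨_, h⟩ (q i ⁻¹' {true}) = 1 ↔ i (inl x.1.1) = true) := by
    rintro ⟨m, s'⟩
    by_cases h : (inr (inl m), s') ∈ R
    swap
    · exact ⟨∅, countable_empty, fun h' => absurd h' h⟩
    have : IsProbabilityMeasure (κ a ⟨_, h⟩) := ⟨by
      rw [← mass, lay1 _ _ MeasurableSet.univ]; exact hkS1 m⟩
    let A : Set (Unit ⊕ (W × P) ⊕ Bot e V) := inr '' (inr '' {l | l.1.1 = m})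
    have hA : MeasurableSet A := MeasurableSet.inr_image (MeasurableSet.inr_image
      (measurable_subtype_coe.fst (hρ0 {m} ((countable_singleton m).image _)).1))
    have hA0 : κ a ⟨_, h⟩ ((fun r : R => r.1.1) ⁻¹' Aᶜ) = 0 := by
      rw [← hz1 a _ _ hA.compl, lay1 _ _ hA.compl,
        hkS _ _ ((measurable_inr.comp measurable_inr) hA.compl)]
      convert measure_empty (μ := m')
      exact eq_empty_of_forall_notMem fun v hv => hv ⟨_, ⟨_, rfl, rfl⟩, rfl⟩
    let D : ℕ → I → Set R := fun n i =>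
      (fun r : R => r.1.1) ⁻¹' A ∩ q i ⁻¹' {i (inl m.1)}ᶜ ∩ {_r | e m.2 i = n}
    have hD : ∀ n, {i | 0 < κ a ⟨_, h⟩ (D n i)}.Countable := fun n =>
      Measure.countable_meas_pos_of_disjoint_iUnion
        (fun i => ((hp1 hA).inter (hq i MeasurableSet.of_discrete)).inter (MeasurableSet.const _))
        fun i j hij => by
          rw [Function.onFun, Set.disjoint_left]
          rintro r ⟨⟨⟨_, ⟨l, hl, rfl⟩, hr⟩, hi⟩, hi'⟩ ⟨⟨-, hj⟩, hj'⟩
          obtain ⟨v, hv, hvl⟩ := bot r l hr.symm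
          obtain ⟨c, v', hv', hc, hl'⟩ := l.2
          have e1 : v.1 = v' := hVi v.2 hv' (by rw [hvl, hl']; rfl)
          have hqc : ∀ i, q i r = c i := fun i => by
            simp only [q, ← hr, hv, Sum.elim_inr, hl', e1, sh]
            cases v'.2 i <;> cases c i <;> rfl
          rw [show l.1.1 = m from hl] at hc
          exact hij (hc (show c i ≠ _ from hqc i ▸ hi) (show c j ≠ _ from hqc j ▸ hj)
            (hi'.trans hj'.symm))
    refine ⟨_, countable_iUnion hD, fun _ i hi => ?_⟩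
    simp only [mem_iUnion, mem_ofPred_eq, not_exists, not_lt, nonpos_iff_eq_zero] at hi
    have h1 : κ a ⟨_, h⟩ (q i ⁻¹' {i (inl m.1)}ᶜ) = 0 :=
      measure_mono_null (fun r hr => by
        by_cases h' : r.1.1 ∈ A
        exacts [Or.inr ⟨⟨h', hr⟩, rfl⟩, Or.inl h']) (measure_union_null hA0 (hi (e m.2 i)))
    change κ a ⟨_, h⟩ _ = 1 ↔ i (inl m.1) = true
    cases hb : i (inl m.1)
    · rw [hb, show ({false}ᶜ : Set Bool) = {true} by ext b; cases b <;> simp] at h1
      simp [h1]
    · rw [hb, preimage_compl, prob_compl_eq_zero_iff (hq i MeasurableSet.of_discrete)] at h1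
      simp [h1]
  choose N hN hN' using step
  have hNc : #(⋃ x, N x) ≤ 𝔠 := by
    have hc := aleph0_le_continuum.{0}
    have hVc : #V ≤ 𝔠 := (mk_le_of_injective (f := fun v : V => (v.1.1 : ℝ)) fun v v' h =>
      Subtype.ext (hVi v.2 v'.2 (Subtype.ext h))).trans_eq mk_real
    have h1 : #((W × P) × (Unit ⊕ Unit ⊕ V)) ≤ 𝔠 := by
      simp only [mk_prod, mk_sum, lift_id]
      exact (mul_le_mul' ((mul_le_mul' W_card hP).trans_eq (mul_eq_self hc))
        (add_le_of_le hc (mk_le_aleph0.trans hc) (add_le_of_le hc (mk_le_aleph0.trans hc)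
          hVc))).trans_eq (mul_eq_self hc)
    exact (mk_iUnion_le _).trans ((mul_le_mul' h1 (ciSup_le' fun x =>
      (le_aleph0_iff_set_countable.mpr (hN x)).trans hc)).trans_eq (mul_eq_self hc))
  let o : R → Option W := fun r =>
    Sum.elim (fun _ => none) (Sum.elim (fun m => some m.1) fun _ => none) r.1.1
  have ho : ∀ X : Set W, o ⁻¹' (some '' X) =
      (fun r : R => r.1.1) ⁻¹' (inr '' (inl '' (Prod.fst ⁻¹' X))) := fun X => by
    ext r
    simp only [o, mem_preimage]
    rcases r.1.1 with _ | ⟨b, p⟩ | l <;> simp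
  have hroot : ∀ X : Set W, MeasurableSet (Prod.fst ⁻¹' X : Set (W × P)) →
      κ a ⟨_, h0⟩ (o ⁻¹' (some '' X)) = ρ (Prod.fst ⁻¹' X) := fun X hX => by
    rw [ho, ← hz1 a _ _ hX.inl_image.inr_image]
    refine (lay0 _ hX.inl_image.inr_image).trans ?_
    rw [preimage_comp, inr_injective.preimage_image, inl_injective.preimage_image]
  have : IsFiniteMeasure (κ a ⟨_, h0⟩) := ⟨(hκ.1 _ _).trans_lt ENNReal.one_lt_top⟩
  have := ulam (κ a ⟨_, h0⟩) o (fun X => ?_) fun b => ?_
  · rw [hroot univ MeasurableSet.univ, preimage_univ, hρ1] at this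
    exact one_ne_zero this
  · obtain ⟨y, hy⟩ : ∃ y : ℝ → Bool, Sum.elim (fun b => decide (b ∈ X)) y ∉ ⋃ x, N x := by
      by_contra h
      push Not at h
      have := (mk_le_of_injective (f := fun y : ℝ → Bool => (⟨_, h y⟩ : ⋃ x, N x)) fun y y' h' =>
        funext fun t => congrFun (congrArg Subtype.val h') (inr t)).trans hNc
      rw [← power_def, mk_bool, mk_real] at this
      exact (cantor _).not_ge this
    have e1 : o ⁻¹' (some '' X) = (fun r : R => r.1.1) ⁻¹' (inr '' (inl '' univ)) ∩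
        (fun r => κ a r (q (Sum.elim (fun b => decide (b ∈ X)) y) ⁻¹' {true})) ⁻¹' {1} := by
      rw [ho]
      ext ⟨⟨s, s'⟩, hr⟩
      rcases s with _ | ⟨b, p⟩ | l
      · simp
      · have := hN' ((b, p), s') hr _ fun h => hy (mem_iUnion.mpr ⟨_, h⟩)
        simp only [Sum.elim_inl, decide_eq_true_eq] at this
        simp [this]
      · simp
    rw [e1]
    exact (hp1 MeasurableSet.univ.inl_image.inr_image).inter
      (hκ.2 a _ (hq _ MeasurableSet.of_discrete) (measurableSet_singleton _))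
  · have := hρ0 (Prod.fst ⁻¹' {b}) ((countable_singleton b).mono (image_preimage_subset _ _))
    rw [hroot _ this.1, this.2]

end Pool.Agent.Results.MP_6dbda4_lc.No
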